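import Pool.Agent.T9h95.CZ.Compl

/-!
# CZ, piece (B4)
-/

set_option autoImplicit false

namespace Pool.Agent.T9h95.CZ

open Pool.Agent.T9h94.CZ

/-- **Piece (B4)** -/
theorem sBool (hD : SDCC) (hI : SInter) (hC : SCompl) : SBool := by
  intro L _ hFG hEq
  by_contra hinf
  rw [← Set.Infinite] at hinf
  -- the chain condition
  have hwf : WellFoundedLT (Bset L) := by
    have h1 : WellFoundedGT (Bset L)ᵒᵈ := by
      rw [wellFoundedGT_iff_monotone_chain_condition]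
      intro a
      have hV : ∀ n : ℕ, ∃ V : Subgroup L, (OrderDual.ofDual (a n) : Bset L).1 =
          Subgroup.centralizer (V : Set L) := fun n => by
        obtain ⟨V, _, h, _⟩ := hC L _ (OrderDual.ofDual (a n)).2
        exact ⟨V, h⟩
      choose V hV using hV
      obtain ⟨n, hn⟩ := hD L hFG hEq (fun n => (V n : Set L)) (fun n => by
        rw [← hV, ← hV]
        exact a.monotone (Nat.le_succ n))
      refine ⟨n, fun m hm => ?_⟩
      have h2 := hn m hm
      rw [← hV, ← hV] at h2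
      exact congrArg OrderDual.toDual (Subtype.ext h2.symm)
    exact ⟨h1.wf⟩
  -- a minimal bad element
  let F : Subgroup L → Set (Subgroup L) := fun W => (fun U => W ⊓ U) '' Bset L
  have htop : (F ⊤).Infinite := by
    have h1 : F ⊤ = Bset L := by
      simp only [F, top_inf_eq, Set.image_id']
    rw [h1]
    exact hinf
  obtain ⟨W, hW, hmin⟩ := hwf.wf.has_min {W : Bset L | (F W.1).Infinite} ⟨⟨⊤, top_mem⟩, htop⟩
  have hfin : ∀ W' : Subgroup L, W' ∈ Bset L → W' < W.1 → (F W').Finite := by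
    intro W' hW' hlt
    by_contra h
    exact hmin ⟨W', hW'⟩ h hlt
  have hex : ∃ U ∈ Bset L, ∃ V ∈ Bset L, U ⊓ V = Subgroup.center L ∧
      (∀ X ∈ Bset L, X = (X ⊓ U) ⊔ (X ⊓ V)) ∧ ¬ W.1 ≤ U ∧ ¬ W.1 ≤ V := by
    by_contra hne
    apply hW
    refine Set.Finite.subset (Set.toFinite {W.1, Subgroup.center L}) ?_
    rintro _ ⟨U, hU, rfl⟩
    obtain ⟨V, hV, -, h1, h2⟩ := hC L U hU
    have h3 : W.1 ≤ U ∨ W.1 ≤ V := by
      by_contra h
      rw [not_or] at h
      exact hne ⟨U, hU, V, hV, h1, h2, h.1, h.2⟩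
    rcases h3 with h3 | h3
    · left
      exact inf_eq_left.2 h3
    · right
      show W.1 ⊓ U = Subgroup.center L
      refine le_antisymm ?_ (le_inf (center_le W.2) (center_le hU))
      rw [← h1]
      exact le_inf inf_le_right (inf_le_left.trans h3)
  obtain ⟨U, hU, V, hV, -, hsup, hWU, hWV⟩ := hex
  have h1 : (F (W.1 ⊓ U)).Finite := hfin _ (hI L _ _ W.2 hU)
    (lt_of_le_of_ne inf_le_left fun h => hWU (inf_eq_left.1 h))
  have h2 : (F (W.1 ⊓ V)).Finite := hfin _ (hI L _ _ W.2 hV)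
    (lt_of_le_of_ne inf_le_left fun h => hWV (inf_eq_left.1 h))
  apply hW
  refine Set.Finite.subset (Set.Finite.image2 (fun a b => a ⊔ b) h1 h2) ?_
  rintro _ ⟨U', hU', rfl⟩
  refine ⟨W.1 ⊓ U ⊓ U', ⟨U', hU', rfl⟩, W.1 ⊓ V ⊓ U', ⟨U', hU', rfl⟩, ?_⟩
  show (W.1 ⊓ U ⊓ U') ⊔ (W.1 ⊓ V ⊓ U') = W.1 ⊓ U'
  have h3 := hsup _ (hI L _ _ W.2 hU')
  rw [inf_right_comm W.1 U U', inf_right_comm W.1 V U']
  exact h3.symm

end Pool.Agent.T9h95.CZ
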