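import Pool.Agent.T9h94.CZ.Spec4

/-!
# CZ, piece (B3)
-/

set_option autoImplicit false

namespace Pool.Agent.T9h95.CZ

open Pool.Agent.T9h94.CZ
open scoped commutatorElement

variable {L : Type} [Group L]

theorem Idem.symm {f h : L →* L} (H : Idem f h) : Idem h f := by
  refine ⟨fun x => ?_, fun x y => (H.2 y x).symm⟩
  rw [← H.2 x x]
  exact H.1 x

theorem comm_left {f h : L →* L} (H : Idem f h) (x y : L) : ⁅f x, y⁆ = f ⁅x, y⁆ := by
  have h1 : Commute (f x) (h y) := H.2 x y
  have h2 : y = f y * h y := (H.1 y).symm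
  rw [map_commutatorElement, commutatorElement_def, commutatorElement_def]
  conv_lhs => rw [h2]
  rw [mul_inv_rev]
  have h3 : h y * (f x)⁻¹ = (f x)⁻¹ * h y := h1.inv_left.eq.symm
  calc f x * (f y * h y) * (f x)⁻¹ * ((h y)⁻¹ * (f y)⁻¹)
      = f x * f y * (h y * (f x)⁻¹) * (h y)⁻¹ * (f y)⁻¹ := by group
    _ = f x * f y * ((f x)⁻¹ * h y) * (h y)⁻¹ * (f y)⁻¹ := by rw [h3]
    _ = f x * f y * (f x)⁻¹ * (f y)⁻¹ := by group

theorem comm_right {f h : L →* L} (H : Idem f h) (x y : L) : ⁅x, f y⁆ = f ⁅x, y⁆ := by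
  rw [← commutatorElement_inv, comm_left H, ← map_inv, commutatorElement_inv]

theorem comm_swap {f h : L →* L} (H : Idem f h) (x y : L) : ⁅f x, y⁆ = ⁅x, f y⁆ := by
  rw [comm_left H, comm_right H]

theorem cen_iff (x : L) : x ∈ Subgroup.center L ↔ ∀ y : L, ⁅x, y⁆ = 1 := by
  rw [Subgroup.mem_center_iff]
  refine forall_congr' fun y => ?_
  rw [commutatorElement_eq_one_iff_mul_comm]
  exact eq_comm

theorem cen_map {f h : L →* L} (H : Idem f h) {x : L} (hx : x ∈ Subgroup.center L) :
    f x ∈ Subgroup.center L := by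
  rw [cen_iff] at hx ⊢
  intro y
  rw [comm_left H, hx, map_one]

theorem cen_fh {f h : L →* L} (H : Idem f h) (x : L) : f (h x) ∈ Subgroup.center L := by
  rw [cen_iff]
  intro y
  rw [comm_left H, ← comm_right H, commutatorElement_eq_one_iff_mul_comm]
  exact (H.2 y x).symm

/-- all elements of `Bset` contain the centre -/
theorem center_le {U : Subgroup L} (hU : U ∈ Bset L) : Subgroup.center L ≤ U := by
  obtain ⟨f, h, H, rfl⟩ := hU
  intro x hx
  rw [Subgroup.mem_comap]
  exact cen_map (Idem.symm H) hx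

theorem top_mem : (⊤ : Subgroup L) ∈ Bset L := by
  refine ⟨MonoidHom.id L, 1, ⟨fun x => ?_, fun x y => ?_⟩, ?_⟩
  · simp
  · simp
  · ext x
    simp [Subgroup.one_mem]

/-- **Piece (B3)** -/
theorem sCompl : SCompl := by
  intro L _ U hU
  obtain ⟨f, h, H, rfl⟩ := hU
  have H' := Idem.symm H
  refine ⟨(Subgroup.center L).comap f, ⟨h, f, H', rfl⟩, ?_, ?_, ?_⟩
  · ext x
    rw [Subgroup.mem_comap, Subgroup.mem_centralizer_iff]
    constructor
    · intro hx y hy
      have hy' : f y ∈ Subgroup.center L := hy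
      rw [cen_iff] at hx hy'
      have h1 : f ⁅x, y⁆ = 1 := by
        rw [← comm_right H, ← inv_inj, commutatorElement_inv, inv_one]
        exact hy' x
      have h2 : h ⁅x, y⁆ = 1 := by
        rw [← comm_left H']
        exact hx y
      have h3 := H.1 ⁅x, y⁆
      rw [h1, h2, mul_one] at h3
      exact (commutatorElement_eq_one_iff_mul_comm.1 h3.symm).symm
    · intro hx
      rw [cen_iff]
      intro y
      rw [comm_swap H', commutatorElement_eq_one_iff_mul_comm]
      exact (hx (h y) (cen_fh H y)).symm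
  · ext x
    rw [Subgroup.mem_inf, Subgroup.mem_comap, Subgroup.mem_comap]
    constructor
    · rintro ⟨h1, h2⟩
      rw [← H.1 x]
      exact mul_mem h2 h1
    · intro hx
      exact ⟨cen_map H' hx, cen_map H hx⟩
  · intro W hW
    obtain ⟨f₂, h₂, H₂, rfl⟩ := hW
    have H₂' := Idem.symm H₂
    refine le_antisymm ?_ (sup_le inf_le_left inf_le_left)
    intro x hx
    rw [Subgroup.mem_comap, cen_iff] at hx
    have key : ∀ {g k : L →* L}, Idem g k → g x ∈ (Subgroup.center L).comap h₂ := by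
      intro g k hg
      rw [Subgroup.mem_comap, cen_iff]
      intro y
      rw [comm_left H₂', comm_swap hg, ← comm_left H₂']
      exact hx _
    rw [← H.1 x]
    refine mul_mem (Subgroup.mem_sup_left ⟨key H, ?_⟩) (Subgroup.mem_sup_right ⟨key H', ?_⟩)
    · exact cen_fh H' x
    · exact cen_fh H x

end Pool.Agent.T9h95.CZ
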