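import Pool.Agent.T9h94.CZ.Spec4

/-!
# CZ, piece (B5)
-/

set_option autoImplicit false

namespace Pool.Agent.T9h95.CZ

open Pool.Agent.T9h94.CZ

/-- **Piece (B5)** -/
theorem sRes : SRes := by
  intro M P _ _ hP α _ S
  obtain ⟨T, hT, hTS, h⟩ := hP α S
  refine ⟨T, hT, hTS, fun x hx w hw => ?_⟩
  obtain ⟨m, hm⟩ := QuotientGroup.mk_surjective (FreeGroup.lift x w)
  rw [← hm, QuotientGroup.eq_one_iff, resKer, Subgroup.mem_iInf]
  intro χ
  rw [MonoidHom.mem_ker]
  let χ' : M ⧸ resKer M P →* P := QuotientGroup.lift (resKer M P) χ fun y hy => by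
    rw [resKer, Subgroup.mem_iInf] at hy
    exact hy χ
  have h1 : ∀ v : FreeGroup α, χ' (FreeGroup.lift x v) = FreeGroup.lift (fun a => χ' (x a)) v := by
    intro v
    have : χ'.comp (FreeGroup.lift x) = FreeGroup.lift (fun a => χ' (x a)) := by
      ext a
      simp
    exact DFunLike.congr_fun this v
  have h2 := h (fun a => χ' (x a)) (fun v hv => by rw [← h1, hx v hv, map_one]) w hw
  rw [← h1, ← hm] at h2
  exact h2

end Pool.Agent.T9h95.CZ
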